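import Pool.Agent.Helper89.A8.Stmts
import Pool.Agent.Helper89.A8.GTools

/-! # A8-G30 : the case 3B -/

set_option autoImplicit false

namespace Pool.Agent.A8

open scoped commutatorElement

/-- commutation from a trivial commutator subgroup -/
theorem G30_comm {G : Type} [Group G] {A B : Subgroup G} (h : ⁅A, B⁆ = ⊥) {a b : G}
    (ha : a ∈ A) (hb : b ∈ B) : a * b = b * a := by
  have h1 : ⁅a, b⁆ ∈ ⁅A, B⁆ := Subgroup.commutator_mem_commutator ha hb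
  rw [h, Subgroup.mem_bot] at h1
  exact commutatorElement_eq_one_iff_mul_comm.1 h1

/-- expansion of the fourth power -/
theorem G30_pow4 {G : Type} [Group G] (t q : G) (ht : t ^ 4 = 1) :
    (t * q) ^ 4 = (t * q * t⁻¹) * (t ^ 2 * q * (t ^ 2)⁻¹) * (t ^ 3 * q * (t ^ 3)⁻¹) * q := by
  have h : t⁻¹ = t ^ 3 := by
    rw [inv_eq_iff_mul_eq_one, ← pow_succ']; exact ht
  have h2 : (t ^ 2)⁻¹ = t ^ 2 := by
    rw [inv_eq_iff_mul_eq_one, ← pow_add]; exact ht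
  have h3 : (t ^ 3)⁻¹ = t := by
    rw [inv_eq_iff_mul_eq_one, ← pow_succ]; exact ht
  rw [h, h2, h3]
  have e1 : t ^ 3 * t ^ 2 = t := by
    rw [← pow_add, show 3 + 2 = 4 + 1 from rfl, pow_add, ht, one_mul, pow_one]
  have e2 : t ^ 2 * t ^ 3 = t := by
    rw [← pow_add, show 2 + 3 = 4 + 1 from rfl, pow_add, ht, one_mul, pow_one]
  calc (t * q) ^ 4 = t * q * (t * q) * (t * q) * (t * q) := by
        rw [pow_succ, pow_succ, pow_succ, pow_one]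
    _ = t * q * (t ^ 3 * t ^ 2) * q * (t ^ 2 * t ^ 3) * q * t * q := by
        rw [e1, e2]; group
    _ = _ := by group

/-- the three components -/
theorem G30_split {G : Type} [Group G] {A B Z K : Subgroup G} [hAn : A.Normal] [hBn : B.Normal]
    [hZn : Z.Normal] (hAB : ⁅A, B⁆ = ⊥) (hAK : A ≤ K) (hBK : B ≤ K)
    (hZ : ∀ z ∈ Z, ∀ k ∈ K, z * k = k * z)
    {t a b z : G} (ht : t ^ 4 = 1) (ha : a ∈ A) (hb : b ∈ B) (hz : z ∈ Z)
    (h1 : (t * a) ^ 4 = 1) (h2 : (t * b) ^ 4 = 1) (h3 : (t * z) ^ 4 = 1) :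
    (t * (a * b * z)) ^ 4 = 1 := by
  rw [G30_pow4 t _ ht] at h1 h2 h3 ⊢
  have cA : ∀ g : G, g * a * g⁻¹ ∈ A := fun g => hAn.conj_mem a ha g
  have cB : ∀ g : G, g * b * g⁻¹ ∈ B := fun g => hBn.conj_mem b hb g
  have cZ : ∀ g : G, g * z * g⁻¹ ∈ Z := fun g => hZn.conj_mem z hz g
  have ex : ∀ g : G, g * (a * b * z) * g⁻¹ = (g * a * g⁻¹) * (g * b * g⁻¹) * (g * z * g⁻¹) := by
    intro g; group
  rw [ex t, ex (t ^ 2), ex (t ^ 3)]
  generalize hA1 : t * a * t⁻¹ = a1 at *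
  generalize hA2 : t ^ 2 * a * (t ^ 2)⁻¹ = a2 at *
  generalize hA3 : t ^ 3 * a * (t ^ 3)⁻¹ = a3 at *
  generalize hB1 : t * b * t⁻¹ = b1 at *
  generalize hB2 : t ^ 2 * b * (t ^ 2)⁻¹ = b2 at *
  generalize hB3 : t ^ 3 * b * (t ^ 3)⁻¹ = b3 at *
  generalize hZ1 : t * z * t⁻¹ = z1 at *
  generalize hZ2 : t ^ 2 * z * (t ^ 2)⁻¹ = z2 at *
  generalize hZ3 : t ^ 3 * z * (t ^ 3)⁻¹ = z3 at *
  have a1m : a1 ∈ A := hA1 ▸ cA t
  have a2m : a2 ∈ A := hA2 ▸ cA (t ^ 2)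
  have a3m : a3 ∈ A := hA3 ▸ cA (t ^ 3)
  have b1m : b1 ∈ B := hB1 ▸ cB t
  have b2m : b2 ∈ B := hB2 ▸ cB (t ^ 2)
  have b3m : b3 ∈ B := hB3 ▸ cB (t ^ 3)
  have z1m : z1 ∈ Z := hZ1 ▸ cZ t
  have z2m : z2 ∈ Z := hZ2 ▸ cZ (t ^ 2)
  have z3m : z3 ∈ Z := hZ3 ▸ cZ (t ^ 3)
  have cm : ∀ {x y : G}, x ∈ A → y ∈ B → y * x = x * y := fun hx hy => (G30_comm hAB hx hy).symm
  have cz : ∀ {x y : G}, x ∈ Z → y ∈ K → x * y = y * x := fun hx hy => hZ _ hx _ hy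
  have mA : ∀ {x y : G}, x ∈ A → y ∈ A → x * y ∈ A := fun hx hy => A.mul_mem hx hy
  have mB : ∀ {x y : G}, x ∈ B → y ∈ B → x * y ∈ B := fun hx hy => B.mul_mem hx hy
  have mZ : ∀ {x y : G}, x ∈ Z → y ∈ Z → x * y ∈ Z := fun hx hy => Z.mul_mem hx hy
  -- merging two products
  have key : ∀ {x1 y1 w1 x2 y2 w2 : G}, x1 ∈ A → y1 ∈ B → w1 ∈ Z → x2 ∈ A → y2 ∈ B → w2 ∈ Z →
      (x1 * y1 * w1) * (x2 * y2 * w2) = (x1 * x2) * (y1 * y2) * (w1 * w2) := by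
    intro x1 y1 w1 x2 y2 w2 hx1 hy1 hw1 hx2 hy2 hw2
    calc (x1 * y1 * w1) * (x2 * y2 * w2) = x1 * y1 * (w1 * (x2 * y2)) * w2 := by group
      _ = x1 * y1 * ((x2 * y2) * w1) * w2 := by
          rw [cz hw1 (K.mul_mem (hAK hx2) (hBK hy2))]
      _ = x1 * (y1 * x2) * y2 * w1 * w2 := by group
      _ = x1 * (x2 * y1) * y2 * w1 * w2 := by rw [cm hx2 hy1]
      _ = _ := by group
  rw [key a1m b1m z1m a2m b2m z2m,
    key (mA a1m a2m) (mB b1m b2m) (mZ z1m z2m) a3m b3m z3m,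
    key (mA (mA a1m a2m) a3m) (mB (mB b1m b2m) b3m) (mZ (mZ z1m z2m) z3m) ha hb hz,
    h1, h2, h3, one_mul, one_mul]

theorem bC3B (h1 : S_CGS) (h2 : S_LIFTC) (h3 : S_FRAME) (h4 : S_PDEC) (h5 : S_C) (h6 : S_DUALG)
    (h7 : S_C3A) (h8 : S_STR) (h9 : S_L7) : S_C3B := by
  intro G _ _ π hC s hs3 hπs
  obtain ⟨hC', hv', hd', hl'⟩ := h6 G π hC
  have hstr := h8 G π hC
  haveI := Kt_normal π .v
  haveI := Kt_normal π .d
  haveI := ZK_normal π
  obtain ⟨r, τ0, hF⟩ := h3 G π hC s hs3 hπs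
  have zK : ∀ z ∈ ZK π, ∀ k ∈ π.ker, z * k = k * z := fun z hz k hk => ((mem_ZK.1 hz).1 k hk).symm
  -- the case of an element over `gt`
  have caseT : ∀ u : G, u * s = s * u → π u = gt → u ^ 4 = 1 := by
    intro u hus hπu
    have hp : τ0⁻¹ * u ∈ π.ker := by
      rw [MonoidHom.mem_ker, map_mul, map_inv, hF.πτ, hπu, inv_mul_cancel]
    have hps : (τ0⁻¹ * u) * s = s * (τ0⁻¹ * u) := by
      have e : τ0⁻¹ * s = s * τ0⁻¹ := by
        have := hF.τs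
        rw [inv_mul_eq_iff_eq_mul, ← mul_assoc, this, mul_assoc, mul_inv_cancel, mul_one]
      rw [mul_assoc, hus, ← mul_assoc, e, mul_assoc]
    obtain ⟨d, hd, p4, hp4, pd, hpd, z, hz, ds, dr, p4s, pds, zs, hdec⟩ :=
      h4 G π hC s r τ0 hF _ hp hps
    have hF' : Frame π s r (τ0 * d) := by
      refine ⟨hF.s3, hF.r3, hF.sr, ?_, ?_, hF.πs, hF.πr, ?_⟩
      · rw [mul_assoc, ds, ← mul_assoc, hF.τs, mul_assoc]
      · calc τ0 * d * r * (τ0 * d)⁻¹ = τ0 * (d * r) * d⁻¹ * τ0⁻¹ := by group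
          _ = τ0 * (r * d) * d⁻¹ * τ0⁻¹ := by rw [dr]
          _ = τ0 * r * τ0⁻¹ := by group
          _ = r⁻¹ := hF.τr
      · rw [map_mul, hF.πτ, MonoidHom.mem_ker.1 hd, mul_one]
    have hFd : Frame (dlG.comp π) s r (τ0 * d) := by
      refine ⟨hF'.s3, hF'.r3, hF'.sr, hF'.τs, hF'.τr, ?_, ?_, ?_⟩
      · rw [MonoidHom.comp_apply, hF'.πs, dlG_gs]
      · rw [MonoidHom.comp_apply, hF'.πr, dlG_gr]
      · rw [MonoidHom.comp_apply, hF'.πτ, dlG_gt]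
    generalize hτ : τ0 * d = τ at *
    have t4 : τ ^ 4 = 1 := by
      have := h5 G π hC s r τ hF' 1 (Subgroup.one_mem _) (by rw [one_mul, mul_one])
      rwa [mul_one] at this
    have t4v := h5 G π hC s r τ hF' p4 hp4 p4s
    have t4d := h5 G (dlG.comp π) hC' s r τ hFd pd (by rw [hv']; exact hpd) pds
    have t4z : (τ * z) ^ 4 = 1 := by
      rw [G30_pow4 τ z t4]
      have hτ2 : τ ^ 2 ∈ π.ker := by
        rw [MonoidHom.mem_ker, map_pow, hF'.πτ]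
        apply Units.ext
        decide
      have e2 : τ ^ 2 * z * (τ ^ 2)⁻¹ = z := by
        rw [← zK z hz _ hτ2, mul_assoc, mul_inv_cancel, mul_one]
      have e3 : τ ^ 3 * z * (τ ^ 3)⁻¹ = τ * z * τ⁻¹ := by
        calc τ ^ 3 * z * (τ ^ 3)⁻¹ = τ * (τ ^ 2 * z * (τ ^ 2)⁻¹) * τ⁻¹ := by group
          _ = τ * z * τ⁻¹ := by rw [e2]
      rw [e2, e3]
      have hz' : τ * z * τ⁻¹ ∈ ZK π := (ZK_normal π).conj_mem z hz τ
      have hc : z * (τ * z * τ⁻¹) = (τ * z * τ⁻¹) * z := zK z hz _ (ZK_le π hz')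
      calc (τ * z * τ⁻¹) * z * (τ * z * τ⁻¹) * z
          = (τ * z * τ⁻¹) * (z * (τ * z * τ⁻¹)) * z := by group
        _ = ((τ * z * τ⁻¹) * (τ * z * τ⁻¹)) * (z * z) := by rw [hc]; group
        _ = 1 := by rw [hstr.z2 _ hz', hstr.z2 _ hz, one_mul]
    have hu : u = τ * (p4 * pd * z) := by
      have : u = τ0 * (τ0⁻¹ * u) := by group
      rw [this, hdec, ← hτ]
      group
    rw [hu]
    exact G30_split hstr.cv (Kt_le π .v) (Kt_le π .d) zK t4 hp4 hpd hz t4v t4d t4z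
  -- the case of an element of the kernel
  have caseK : ∀ u : G, u * s = s * u → π u = 1 → u ^ 4 = 1 := by
    intro u hus hπu
    obtain ⟨d, hd, p4, hp4, pd, hpd, z, hz, ds, dr, p4s, pds, zs, hdec⟩ :=
      h4 G π hC s r τ0 hF u (MonoidHom.mem_ker.2 hπu) hus
    have hd2 : d * d = 1 := by
      refine h7 G π hC (s * r) ?_ ?_ d hd ?_
      · have : Commute s r := hF.sr
        rw [this.mul_pow, hF.s3, hF.r3, one_mul]
      · rw [map_mul, hF.πs, hF.πr, ga_eq]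
      · rw [← mul_assoc, ds, mul_assoc, dr, ← mul_assoc]
    have sq : ∀ (π' : G →* Gam), Cfg π' → ∀ d ∈ π'.ker, ∀ x ∈ Kt π' .v,
        ((d * x * d⁻¹) * x) * ((d * x * d⁻¹) * x) = 1 := by
      intro π' hc' d hd x hx
      apply (h9 G π' hc').el
      have hx' := (Kt_normal π' .v).conj_mem x hx d
      refine ⟨Subgroup.mul_mem _ hx' hx, fun φ hφ _ => ?_⟩
      rw [hφ.mul _ hx' _ hx, hφ.conj_ker hd hx, add_self]
    have q1 := sq π hC d hd p4 hp4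
    have hd'' : d ∈ (dlG.comp π).ker := by
      rw [MonoidHom.mem_ker, MonoidHom.comp_apply, MonoidHom.mem_ker.1 hd, map_one]
    have q2 := sq (dlG.comp π) hC' d hd'' pd (by rw [hv']; exact hpd)
    have m1 : (d * p4 * d⁻¹) ∈ Kt π .v := (Kt_normal π .v).conj_mem p4 hp4 d
    have m2 : (d * pd * d⁻¹) ∈ Kt π .d := (Kt_normal π .d).conj_mem pd hpd d
    have dinv : d⁻¹ = d := by rw [inv_eq_iff_mul_eq_one]; exact hd2
    have hz2 := hstr.z2 z hz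
    have hu2 : u * u = ((d * p4 * d⁻¹) * p4) * ((d * pd * d⁻¹) * pd) := by
      have c1 : z * (d * p4 * pd) = (d * p4 * pd) * z :=
        zK z hz _ (Subgroup.mul_mem _ (Subgroup.mul_mem _ hd (Kt_le π .v hp4)) (Kt_le π .d hpd))
      have c2 : p4 * (d * pd * d⁻¹) = (d * pd * d⁻¹) * p4 := G30_comm hstr.cv hp4 m2
      calc u * u = (d * p4 * pd) * (z * (d * p4 * pd)) * z := by rw [hdec]; group
        _ = (d * p4 * pd) * (d * p4 * pd) * (z * z) := by rw [c1]; group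
        _ = (d * p4 * pd) * (d * p4 * pd) := by rw [hz2, mul_one]
        _ = (d * p4 * d⁻¹) * (d * pd * d) * p4 * pd := by group
        _ = (d * p4 * d⁻¹) * (d * pd * d⁻¹) * p4 * pd := by rw [dinv]
        _ = (d * p4 * d⁻¹) * ((d * pd * d⁻¹) * p4) * pd := by group
        _ = (d * p4 * d⁻¹) * (p4 * (d * pd * d⁻¹)) * pd := by rw [c2]
        _ = _ := by group
    have c3 : ((d * p4 * d⁻¹) * p4) * ((d * pd * d⁻¹) * pd) =
        ((d * pd * d⁻¹) * pd) * ((d * p4 * d⁻¹) * p4) :=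
      G30_comm hstr.cv (Subgroup.mul_mem _ m1 hp4) (Subgroup.mul_mem _ m2 hpd)
    calc u ^ 4 = (u * u) * (u * u) := by
          rw [pow_succ, pow_succ, pow_succ, pow_one, mul_assoc (u * u)]
      _ = ((d * p4 * d⁻¹) * p4) * (((d * pd * d⁻¹) * pd) * ((d * p4 * d⁻¹) * p4)) *
          ((d * pd * d⁻¹) * pd) := by rw [hu2]; simp only [mul_assoc]
      _ = (((d * p4 * d⁻¹) * p4) * ((d * p4 * d⁻¹) * p4)) *
          (((d * pd * d⁻¹) * pd) * ((d * pd * d⁻¹) * pd)) := by rw [← c3]; simp only [mul_assoc]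
      _ = 1 := by rw [q1, q2, one_mul]
  -- the general case
  intro u hus hu
  obtain ⟨k, hk⟩ := hu
  have e1 : π u * gs = gs * π u := by rw [← hπs, ← map_mul, ← map_mul, hus]
  rcases h1 (π u) e1 ⟨k, by rw [← map_pow, hk, map_one]⟩ with h | ⟨c, hc1, hc2⟩
  · exact caseK u hus h
  · obtain ⟨x, hx1, hx2⟩ := h2 G π hC s c hs3 (by rw [hπs]; exact hc1)
    have e : (x * u * x⁻¹) ^ 4 = 1 := by
      apply caseT
      · have hx3 : x⁻¹ * s = s * x⁻¹ := by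
          rw [inv_mul_eq_iff_eq_mul, ← mul_assoc, hx2, mul_assoc, mul_inv_cancel, mul_one]
        calc x * u * x⁻¹ * s = x * u * (x⁻¹ * s) := by group
          _ = x * (u * s) * x⁻¹ := by rw [hx3]; group
          _ = (x * s) * u * x⁻¹ := by rw [hus]; group
          _ = s * (x * u * x⁻¹) := by rw [hx2]; group
      · rw [map_mul, map_mul, map_inv, hx1, hc2]
    rw [conj_pow] at e
    calc u ^ 4 = x⁻¹ * (x * u ^ 4 * x⁻¹) * x := by group
      _ = 1 := by rw [e]; group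

end Pool.Agent.A8
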