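import Pool.Agent.Helper89.A8.Stmts
import Pool.Agent.Helper89.A8.GTools

/-! # A8-G31 : no elements of order 24 -/

set_option autoImplicit false

namespace Pool.Agent.A8

theorem G31_aux {G : Type} [Group G] {g : G} (hg : orderOf g = 24) (h : g ^ 12 = 1) : False := by
  have := orderOf_dvd_of_pow_eq_one h
  rw [hg] at this
  omega

theorem bMAIN (h1 : S_O3) (h2 : S_CGA) (h3 : S_C3A) (h4 : S_C3B) (h5 : S_LIFT) : S_MAIN := by
  have _ := h5
  intro G _ _ π hC g0 hg0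
  -- `π (g0 ^ 8)` is not trivial
  have h24 : g0 ^ 24 = 1 := by rw [← hg0]; exact pow_orderOf_eq_one g0
  have hne : π (g0 ^ 8) ≠ 1 := by
    intro h
    obtain ⟨k, hk⟩ := hC.ker2 ⟨g0 ^ 8, MonoidHom.mem_ker.2 h⟩
    have hk' : (g0 ^ 8) ^ 2 ^ k = 1 := congrArg Subtype.val hk
    rw [← pow_mul] at hk'
    have hd := orderOf_dvd_of_pow_eq_one hk'
    rw [hg0] at hd
    have h3 : 3 ∣ 8 * 2 ^ k := Dvd.dvd.trans (by norm_num) hd
    have h3' : 3 ∣ 2 ^ (k + 3) := by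
      rw [pow_add]; simpa [mul_comm] using h3
    have := Nat.Prime.dvd_of_dvd_pow Nat.prime_three h3'
    omega
  have h3c : π (g0 ^ 8) ^ 3 = 1 := by
    rw [← map_pow, ← pow_mul, h24, map_one]
  obtain ⟨c, hc⟩ := h1 _ h3c hne
  obtain ⟨x, rfl⟩ := hC.surj c
  -- conjugate
  obtain ⟨g, hgdef⟩ : ∃ g, g = x * g0 * x⁻¹ := ⟨_, rfl⟩
  have hg : orderOf g = 24 := by
    rw [hgdef, ← hg0]
    exact orderOf_injective (MulAut.conj x).toMonoidHom (MulAut.conj x).injective g0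
  have hgp : ∀ n : ℕ, g ^ n = x * g0 ^ n * x⁻¹ := fun n => by rw [hgdef, conj_pow]
  have h24g : g ^ 24 = 1 := by rw [← hg]; exact pow_orderOf_eq_one g
  have hπ8 : π (g ^ 8) = π x * π (g0 ^ 8) * (π x)⁻¹ := by
    rw [hgp, map_mul, map_mul, map_inv]
  have h83 : (g ^ 8) ^ 3 = 1 := by rw [← pow_mul]; exact h24g
  have hcomm : g ^ 3 * g ^ 8 = g ^ 8 * g ^ 3 := by rw [← pow_add, ← pow_add]
  rcases hc with hc | hc
  · have hs : π (g ^ 8) = gs := by rw [hπ8, hc]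
    have := h4 G π hC (g ^ 8) h83 hs (g ^ 3) hcomm ⟨3, by rw [← pow_mul]; exact h24g⟩
    rw [← pow_mul] at this
    exact G31_aux hg this
  · have hs : π (g ^ 8) = ga := by rw [hπ8, hc]
    have e1 : π (g ^ 3) * ga = ga * π (g ^ 3) := by
      rw [← hs, ← map_mul, ← map_mul, hcomm]
    have e2 := h2 (π (g ^ 3)) e1 ⟨3, by rw [← map_pow, ← pow_mul, show 3 * 2 ^ 3 = 24 from rfl,
      h24g, map_one]⟩
    have e3 : g ^ 6 ∈ π.ker := by
      rw [MonoidHom.mem_ker, show (6 : ℕ) = 3 + 3 from rfl, pow_add, map_mul]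
      exact e2
    have e4 := h3 G π hC (g ^ 8) h83 hs (g ^ 6) e3 (by rw [← pow_add, ← pow_add])
    rw [← pow_add] at e4
    exact G31_aux hg e4

end Pool.Agent.A8
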